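import Mathlib

/-!
# Order-two Delaunay pairs of a family of vectors of `ℝ³`

`a b c : ι → ℝ` are the coordinates of the vectors `g_i`. `chi i j k x` is the determinant of
`g_x - g_i, g_j - g_i, g_k - g_i`.
-/

open Finset

namespace Pool.Agent.Helper67.SIG

variable {ι : Type*}

/-- The orientation determinant. -/
def chi (a b c : ι → ℝ) (i j k x : ι) : ℝ :=
  (a x - a i) * ((b j - b i) * (c k - c i) - (c j - c i) * (b k - b i)) +
  (b x - b i) * ((c j - c i) * (a k - a i) - (a j - a i) * (c k - c i)) +
  (c x - c i) * ((a j - a i) * (b k - b i) - (b j - b i) * (a k - a i))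

/-- Difference of the two linear forms at `(u, v, w)`. -/
def dif (a b c : ι → ℝ) (i x : ι) (u v w : ℝ) : ℝ :=
  (a x - a i) * u + (b x - b i) * v + (c x - c i) * w

theorem chi_rot (a b c : ι → ℝ) (i j k x : ι) : chi a b c j k i x = chi a b c i j k x := by
  unfold chi; ring

theorem chi_self_left (a b c : ι → ℝ) (i j k : ι) : chi a b c i j k i = 0 := by
  unfold chi; ring

theorem chi_self_mid (a b c : ι → ℝ) (i j k : ι) : chi a b c i j k j = 0 := by
  unfold chi; ring

theorem chi_self_right (a b c : ι → ℝ) (i j k : ι) : chi a b c i j k k = 0 := by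
  unfold chi; ring

/-- Number of indices strictly below the triple. -/
noncomputable def cnt [Fintype ι] (a b c : ι → ℝ) (i j k : ι) : ℕ :=
  (univ.filter fun x => chi a b c i j k x < 0).card

/-- One dimensional lemma: the first moment at which three of the affine functions are `≤ 0`. -/
theorem first_time (S : Finset ι) (h k : ι → ℝ)
    (h2 : (S.filter fun x => h x ≤ 0).card ≤ 2) (h3 : 3 ≤ (S.filter fun x => 0 < h x).card)
    (htie : ∀ x ∈ S, ∀ y ∈ S, x ≠ y → ∀ t : ℝ, h x * t + k x = 0 → h y * t + k y = 0 → False) :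
    ∃ y ∈ S, 0 < h y ∧ ∃ t : ℝ, h y * t + k y = 0 ∧
      (S.filter fun x => h x * t + k x < 0).card = 2 := by
  classical
  set Sp := S.filter fun x => 0 < h x with hSp
  let tt : ι → ℝ := fun x => - k x / h x
  have htt : ∀ x ∈ Sp, ∀ t, (h x * t + k x ≤ 0 ↔ t ≤ tt x) := by
    intro x hx t
    have hx0 : 0 < h x := (Finset.mem_filter.mp hx).2
    show h x * t + k x ≤ 0 ↔ t ≤ - k x / h x
    rw [le_div_iff₀ hx0]
    constructor <;> intro h' <;> linarith
  have htt0 : ∀ x ∈ Sp, h x * tt x + k x = 0 := by
    intro x hx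
    have hx0 : 0 < h x := (Finset.mem_filter.mp hx).2
    show h x * (- k x / h x) + k x = 0
    field_simp; ring
  -- candidates
  set C := Sp.filter fun x => 3 ≤ (S.filter fun y => h y * tt x + k y ≤ 0).card with hC
  have hne : C.Nonempty := by
    have hSpne : Sp.Nonempty := Finset.card_pos.mp (by omega)
    obtain ⟨x, hx, hmin⟩ := Finset.exists_min_image Sp tt hSpne
    refine ⟨x, Finset.mem_filter.mpr ⟨hx, le_trans h3 (Finset.card_le_card ?_)⟩⟩
    intro y hy
    rw [Finset.mem_filter]
    exact ⟨(Finset.mem_filter.mp hy).1, (htt y hy _).2 (hmin y hy)⟩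
  obtain ⟨y, hy, hmax⟩ := Finset.exists_max_image C tt hne
  have hySp : y ∈ Sp := (Finset.mem_filter.mp hy).1
  have hyS : y ∈ S := (Finset.mem_filter.mp hySp).1
  have hy0 : 0 < h y := (Finset.mem_filter.mp hySp).2
  have hyF := (Finset.mem_filter.mp hy).2
  refine ⟨y, hyS, hy0, tt y, htt0 y hySp, ?_⟩
  -- the closed set is the strict set plus y
  have hset : (S.filter fun x => h x * tt y + k x ≤ 0) =
      insert y (S.filter fun x => h x * tt y + k x < 0) := by
    ext x
    simp only [Finset.mem_filter, Finset.mem_insert]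
    constructor
    · rintro ⟨hxS, hle⟩
      rcases lt_or_eq_of_le hle with hlt | heq
      · exact Or.inr ⟨hxS, hlt⟩
      · left
        by_contra hxy
        exact htie x hxS y hyS hxy _ heq (htt0 y hySp)
    · rintro (rfl | ⟨hxS, hlt⟩)
      · exact ⟨hyS, (htt0 x hySp).le⟩
      · exact ⟨hxS, hlt.le⟩
  have hynot : y ∉ S.filter fun x => h x * tt y + k x < 0 := by
    intro hcon
    have := (Finset.mem_filter.mp hcon).2
    rw [htt0 y hySp] at this
    exact lt_irrefl _ this
  rw [hset, Finset.card_insert_of_notMem hynot] at hyF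
  by_contra hcard
  have h4 : 3 ≤ (S.filter fun x => h x * tt y + k x < 0).card := by omega
  set Nn := S.filter fun x => h x * tt y + k x < 0 with hNn
  have hNp : (Nn.filter fun x => 0 < h x).Nonempty := by
    by_contra hemp
    rw [Finset.not_nonempty_iff_eq_empty] at hemp
    have : Nn ⊆ S.filter fun x => h x ≤ 0 := by
      intro x hx
      have hx' := Finset.mem_filter.mp hx
      refine Finset.mem_filter.mpr ⟨hx'.1, ?_⟩
      by_contra hpos
      have : x ∈ Nn.filter fun x => 0 < h x := Finset.mem_filter.mpr ⟨hx, not_le.mp hpos⟩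
      rw [hemp] at this
      simp at this
    have := Finset.card_le_card this
    omega
  obtain ⟨x, hx, hmin⟩ := Finset.exists_min_image _ tt hNp
  have hx' := Finset.mem_filter.mp hx
  have hxN := Finset.mem_filter.mp hx'.1
  have hxSp : x ∈ Sp := Finset.mem_filter.mpr ⟨hxN.1, hx'.2⟩
  have hlt : tt y < tt x := by
    by_contra hcon
    push Not at hcon
    have h5 := htt0 x hxSp
    have : h x * tt x ≤ h x * tt y := mul_le_mul_of_nonneg_left hcon hx'.2.le
    linarith [hxN.2]
  have hxC : x ∈ C := by
    refine Finset.mem_filter.mpr ⟨hxSp, le_trans h4 (Finset.card_le_card ?_)⟩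
    intro z hz
    have hz' := Finset.mem_filter.mp hz
    refine Finset.mem_filter.mpr ⟨hz'.1, ?_⟩
    by_cases hz0 : 0 < h z
    · have hzSp : z ∈ Sp := Finset.mem_filter.mpr ⟨hz'.1, hz0⟩
      exact (htt z hzSp _).2 (hmin z (Finset.mem_filter.mpr ⟨hz, hz0⟩))
    · push Not at hz0
      have : h z * tt x ≤ h z * tt y := mul_le_mul_of_nonpos_left hlt.le hz0
      linarith [hz'.2]
  exact absurd (hmax x hxC) (not_le.mpr hlt)

/-- Step 3: each order-two pair starts a triple with exactly two indices below; the third index is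
above the pair at the witness. -/
theorem exists_third' [Fintype ι] [DecidableEq ι] (a b c : ι → ℝ)
    (hgen : ∀ i j k x : ι, i ≠ j → i ≠ k → j ≠ k → x ≠ i → x ≠ j → x ≠ k →
      chi a b c i j k x ≠ 0)
    (hcard : 7 ≤ Fintype.card ι) {i j : ι} (hij : i ≠ j) {u v w : ℝ}
    (h0 : dif a b c i j u v w = 0)
    (h2 : (univ.filter fun x => x ≠ i ∧ x ≠ j ∧ dif a b c i x u v w ≤ 0).card ≤ 2) :
    ∃ k, k ≠ i ∧ k ≠ j ∧ 0 < dif a b c i k u v w ∧ cnt a b c i j k = 2 := by
  set S : Finset ι := (univ.erase i).erase j with hS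
  have hScard : S.card = Fintype.card ι - 2 := by
    rw [hS, Finset.card_erase_of_mem (by simp [hij.symm]), Finset.card_erase_of_mem (by simp),
      Finset.card_univ]
    omega
  have hmemS : ∀ x, x ∈ S ↔ x ≠ i ∧ x ≠ j := by
    intro x; simp [hS]; tauto
  -- direction
  set d1 := (b j - b i) * w - (c j - c i) * v with hd1
  set d2 := (c j - c i) * u - (a j - a i) * w with hd2
  set d3 := (a j - a i) * v - (b j - b i) * u with hd3
  set n2 := u ^ 2 + v ^ 2 + w ^ 2 with hn2
  have hle : (S.filter fun x => dif a b c i x u v w ≤ 0).card ≤ 2 := by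
    refine le_trans (Finset.card_le_card ?_) h2
    intro x hx
    have := Finset.mem_filter.mp hx
    simp only [Finset.mem_filter, Finset.mem_univ, true_and]
    exact ⟨((hmemS x).1 this.1).1, ((hmemS x).1 this.1).2, this.2⟩
  have hsum : (S.filter fun x => dif a b c i x u v w ≤ 0).card +
      (S.filter fun x => 0 < dif a b c i x u v w).card = S.card := by
    rw [← Finset.card_filter_add_card_filter_not (s := S) (fun x => dif a b c i x u v w ≤ 0)]
    congr 2
    ext x; simp
  have hn2pos : 0 < n2 := by
    rcases lt_or_eq_of_le (by positivity : 0 ≤ n2) with h | h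
    · exact h
    · exfalso
      have hu : u = 0 := by nlinarith [sq_nonneg u, sq_nonneg v, sq_nonneg w]
      have hv : v = 0 := by nlinarith [sq_nonneg u, sq_nonneg v, sq_nonneg w]
      have hw : w = 0 := by nlinarith [sq_nonneg u, sq_nonneg v, sq_nonneg w]
      have : (S.filter fun x => 0 < dif a b c i x u v w) = ∅ := by
        rw [Finset.filter_eq_empty_iff]
        intro x _
        simp [dif, hu, hv, hw]
      rw [this] at hsum
      simp at hsum
      omega
  -- key identity
  have hid : ∀ x y, n2 * chi a b c i j y x =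
      dif a b c i y u v w * dif a b c i x d1 d2 d3 -
      dif a b c i y d1 d2 d3 * dif a b c i x u v w := by
    intro x y
    unfold dif at h0
    unfold dif chi
    rw [hd1, hd2, hd3, hn2]
    linear_combination (((b y - b i) * (c x - c i) - (c y - c i) * (b x - b i)) * u +
      ((c y - c i) * (a x - a i) - (a y - a i) * (c x - c i)) * v +
      ((a y - a i) * (b x - b i) - (b y - b i) * (a x - a i)) * w) * h0
  obtain ⟨k, hkS, hk0, t, hkt, hcount⟩ := first_time S (fun x => dif a b c i x u v w)
    (fun x => dif a b c i x d1 d2 d3) hle (by omega) (by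
      intro x hx y hy hxy t hxt hyt
      have hx' := (hmemS x).1 hx
      have hy' := (hmemS y).1 hy
      have h5 := hid x y
      apply hgen i j y x hij hy'.1.symm hy'.2.symm hx'.1 hx'.2 hxy
      have h6 : dif a b c i x d1 d2 d3 = - dif a b c i x u v w * t := by linarith
      have h7 : dif a b c i y d1 d2 d3 = - dif a b c i y u v w * t := by linarith
      rw [h6, h7] at h5
      have h8 : n2 * chi a b c i j y x = 0 := by rw [h5]; ring
      rcases mul_eq_zero.mp h8 with h | h
      · exact absurd h hn2pos.ne'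
      · exact h)
  refine ⟨k, ((hmemS k).1 hkS).1, ((hmemS k).1 hkS).2, hk0, ?_⟩
  unfold cnt
  rw [← hcount]
  congr 1
  ext x
  simp only [Finset.mem_filter, Finset.mem_univ, true_and]
  have h5 := hid x k
  have h7 : dif a b c i k d1 d2 d3 = - dif a b c i k u v w * t := by linarith
  rw [h7] at h5
  have h8 : n2 * chi a b c i j k x =
      dif a b c i k u v w * (dif a b c i x u v w * t + dif a b c i x d1 d2 d3) := by
    rw [h5]; ring
  constructor
  · intro hneg
    have hx : x ∈ S := by
      rw [hmemS]
      constructor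
      · rintro rfl; rw [chi_self_left] at hneg; exact lt_irrefl _ hneg
      · rintro rfl; rw [chi_self_mid] at hneg; exact lt_irrefl _ hneg
    refine ⟨hx, ?_⟩
    by_contra hcon
    push Not at hcon
    have : 0 ≤ n2 * chi a b c i j k x := by rw [h8]; positivity
    nlinarith
  · rintro ⟨_, hneg⟩
    by_contra hcon
    push Not at hcon
    have h9 : 0 ≤ n2 * chi a b c i j k x := by positivity
    rw [h8] at h9
    nlinarith

/-- Step 3: each order-two pair starts a triple with exactly two indices below. -/
theorem exists_third [Fintype ι] [DecidableEq ι] (a b c : ι → ℝ)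
    (hgen : ∀ i j k x : ι, i ≠ j → i ≠ k → j ≠ k → x ≠ i → x ≠ j → x ≠ k →
      chi a b c i j k x ≠ 0)
    (hcard : 7 ≤ Fintype.card ι) {i j : ι} (hij : i ≠ j) {u v w : ℝ}
    (h0 : dif a b c i j u v w = 0)
    (h2 : (univ.filter fun x => x ≠ i ∧ x ≠ j ∧ dif a b c i x u v w ≤ 0).card ≤ 2) :
    ∃ k, cnt a b c i j k = 2 := by
  obtain ⟨k, _, _, _, h⟩ := exists_third' a b c hgen hcard hij h0 h2
  exact ⟨k, h⟩

end Pool.Agent.Helper67.SIG
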