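import Pool.Agent.Helper67.SIG.Core

/-!
# Number of triples with exactly two indices below
-/

open Finset

namespace Pool.Agent.Helper67.SIG

variable {ι : Type*}

/-- Comparison of two triples with middle index `j` (the second one is at least as far). -/
theorem uniq_aux [Fintype ι] (a b c : ι → ℝ)
    (hgen : ∀ i j k x : ι, i ≠ j → i ≠ k → j ≠ k → x ≠ i → x ≠ j → x ≠ k →
      chi a b c i j k x ≠ 0)
    {j : ι} {u v w : ℝ} (hz : ∀ q, q ≠ j → 0 < dif a b c j q u v w)
    {x x' y y' : ι} (hx : a x < a j) (hx' : a x' < a j) (hy : a j < a y) (hy' : a j < a y')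
    (hR : (univ.filter fun q => a q < a j ∧ chi a b c j y x q < 0).card =
      (univ.filter fun q => a q < a j ∧ chi a b c j y' x' q < 0).card)
    (hL : (univ.filter fun q => a j < a q ∧ chi a b c j y x q < 0).card =
      (univ.filter fun q => a j < a q ∧ chi a b c j y' x' q < 0).card)
    (hτ : 0 ≤ ((c y - c j) * (a x - a j) - (a y - a j) * (c x - c j)) *
        ((a y' - a j) * (b x' - b j) - (b y' - b j) * (a x' - a j)) -
      ((a y - a j) * (b x - b j) - (b y - b j) * (a x - a j)) *
        ((c y' - c j) * (a x' - a j) - (a y' - a j) * (c x' - c j))) :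
    x = x' ∧ y = y' := by
  classical
  -- an index of `R` below or tied at the first centre and not below at the second
  obtain ⟨q, hqR, hq1, hq2⟩ : ∃ q, a q < a j ∧ chi a b c j y x q ≤ 0 ∧
      0 ≤ chi a b c j y' x' q := by
    by_contra hcon
    push Not at hcon
    have hsub : insert x (univ.filter fun q => a q < a j ∧ chi a b c j y x q < 0) ⊆
        (univ.filter fun q => a q < a j ∧ chi a b c j y' x' q < 0) := by
      intro q hq
      rw [Finset.mem_insert] at hq
      simp only [Finset.mem_filter, Finset.mem_univ, true_and] at hq ⊢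
      rcases hq with rfl | ⟨h1, h2⟩
      · exact ⟨hx, hcon _ hx (by rw [chi_self_right])⟩
      · exact ⟨h1, hcon _ h1 h2.le⟩
    have hnot : x ∉ (univ.filter fun q => a q < a j ∧ chi a b c j y x q < 0) := by
      simp only [Finset.mem_filter, Finset.mem_univ, true_and]
      rintro ⟨_, h⟩
      rw [chi_self_right] at h
      exact lt_irrefl _ h
    have := Finset.card_le_card hsub
    rw [Finset.card_insert_of_notMem hnot] at this
    omega
  obtain ⟨s, hsL, hs1, hs2⟩ : ∃ s, a j < a s ∧ chi a b c j y x s ≤ 0 ∧
      0 ≤ chi a b c j y' x' s := by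
    by_contra hcon
    push Not at hcon
    have hsub : insert y (univ.filter fun q => a j < a q ∧ chi a b c j y x q < 0) ⊆
        (univ.filter fun q => a j < a q ∧ chi a b c j y' x' q < 0) := by
      intro q hq
      rw [Finset.mem_insert] at hq
      simp only [Finset.mem_filter, Finset.mem_univ, true_and] at hq ⊢
      rcases hq with rfl | ⟨h1, h2⟩
      · exact ⟨hy, hcon _ hy (by rw [chi_self_mid])⟩
      · exact ⟨h1, hcon _ h1 h2.le⟩
    have hnot : y ∉ (univ.filter fun q => a j < a q ∧ chi a b c j y x q < 0) := by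
      simp only [Finset.mem_filter, Finset.mem_univ, true_and]
      rintro ⟨_, h⟩
      rw [chi_self_mid] at h
      exact lt_irrefl _ h
    have := Finset.card_le_card hsub
    rw [Finset.card_insert_of_notMem hnot] at this
    omega
  have hne : ∀ {p r : ι}, a p < a r → p ≠ r := by rintro p r h rfl; exact lt_irrefl _ h
  -- positivity of `P`
  have hP : ∀ x y : ι, a x < a j → a j < a y →
      0 < v * ((a y - a j) * (b x - b j) - (b y - b j) * (a x - a j)) -
        w * ((c y - c j) * (a x - a j) - (a y - a j) * (c x - c j)) := by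
    intro x y hx hy
    have h1 := hz x (hne hx)
    have h2 := hz y (hne hy).symm
    have h3 : v * ((a y - a j) * (b x - b j) - (b y - b j) * (a x - a j)) -
        w * ((c y - c j) * (a x - a j) - (a y - a j) * (c x - c j)) =
        (a y - a j) * dif a b c j x u v w + (a j - a x) * dif a b c j y u v w := by
      unfold dif; ring
    rw [h3]
    have h4 : 0 < a y - a j := by linarith
    have h5 : 0 < a j - a x := by linarith
    positivity
  have hP1 := hP x y hx hy
  have hP2 := hP x' y' hx' hy'
  have hΦ : 0 < (a s - a j) * dif a b c j q u v w + (a j - a q) * dif a b c j s u v w := by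
    have h1 := hz q (hne hqR)
    have h2 := hz s (hne hsL).symm
    have h4 : 0 < a s - a j := by linarith
    have h5 : 0 < a j - a q := by linarith
    positivity
  have hid : (v * ((a y' - a j) * (b x' - b j) - (b y' - b j) * (a x' - a j)) -
        w * ((c y' - c j) * (a x' - a j) - (a y' - a j) * (c x' - c j))) *
        ((a s - a j) * chi a b c j y x q + (a j - a q) * chi a b c j y x s) =
      (v * ((a y - a j) * (b x - b j) - (b y - b j) * (a x - a j)) -
        w * ((c y - c j) * (a x - a j) - (a y - a j) * (c x - c j))) *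
        ((a s - a j) * chi a b c j y' x' q + (a j - a q) * chi a b c j y' x' s) +
      (((c y - c j) * (a x - a j) - (a y - a j) * (c x - c j)) *
        ((a y' - a j) * (b x' - b j) - (b y' - b j) * (a x' - a j)) -
      ((a y - a j) * (b x - b j) - (b y - b j) * (a x - a j)) *
        ((c y' - c j) * (a x' - a j) - (a y' - a j) * (c x' - c j))) *
      ((a s - a j) * dif a b c j q u v w + (a j - a q) * dif a b c j s u v w) := by
    unfold chi dif; ring
  have has : 0 < a s - a j := by linarith
  have haq : 0 < a j - a q := by linarith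
  set A := (a s - a j) * chi a b c j y x q + (a j - a q) * chi a b c j y x s with hA
  set B := (a s - a j) * chi a b c j y' x' q + (a j - a q) * chi a b c j y' x' s with hB
  have hA0 : A ≤ 0 := by
    have h1 := mul_nonneg has.le (neg_nonneg.mpr hq1)
    have h2 := mul_nonneg haq.le (neg_nonneg.mpr hs1)
    rw [hA]; linarith
  have hB0 : 0 ≤ B := by
    have h1 := mul_nonneg has.le hq2
    have h2 := mul_nonneg haq.le hs2
    rw [hB]; linarith
  have hAz : A = 0 := by
    by_contra hne0
    have hlt : A < 0 := lt_of_le_of_ne hA0 hne0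
    have h1 := mul_pos hP2 (neg_pos.mpr hlt)
    have h2 := mul_nonneg hP1.le hB0
    have h3 := mul_nonneg hτ hΦ.le
    linarith
  have hBz : B = 0 := by
    by_contra hne0
    have hlt : 0 < B := lt_of_le_of_ne hB0 (Ne.symm hne0)
    have h1 := mul_pos hP1 hlt
    have h3 := mul_nonneg hτ hΦ.le
    rw [hAz] at hid
    linarith
  have e1 : chi a b c j y x q = 0 ∧ chi a b c j y x s = 0 := by
    have h1 := mul_nonneg has.le (neg_nonneg.mpr hq1)
    have h2 := mul_nonneg haq.le (neg_nonneg.mpr hs1)
    constructor
    · have : (a s - a j) * chi a b c j y x q = 0 := by linarith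
      exact (mul_eq_zero.mp this).resolve_left has.ne'
    · have : (a j - a q) * chi a b c j y x s = 0 := by linarith
      exact (mul_eq_zero.mp this).resolve_left haq.ne'
  have e2 : chi a b c j y' x' q = 0 ∧ chi a b c j y' x' s = 0 := by
    have h1 := mul_nonneg has.le hq2
    have h2 := mul_nonneg haq.le hs2
    constructor
    · have : (a s - a j) * chi a b c j y' x' q = 0 := by linarith
      exact (mul_eq_zero.mp this).resolve_left has.ne'
    · have : (a j - a q) * chi a b c j y' x' s = 0 := by linarith
      exact (mul_eq_zero.mp this).resolve_left haq.ne'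
  have key : ∀ {x y q s : ι}, a x < a j → a j < a y → a q < a j → a j < a s →
      chi a b c j y x q = 0 → chi a b c j y x s = 0 → q = x ∧ s = y := by
    intro x y q s hx hy hq hs h1 h2
    have hxy : a x < a y := hx.trans hy
    constructor
    · by_contra hcon
      exact hgen j y x q (hne hy) (hne hx).symm (hne hxy).symm (hne hq) (hne (hq.trans hy)) hcon h1
    · by_contra hcon
      exact hgen j y x s (hne hy) (hne hx).symm (hne hxy).symm (hne hs).symm hcon
        (hne (hx.trans hs)).symm h2
  have f1 := key hx hy hqR hsL e1.1 e1.2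
  have f2 := key hx' hy' hqR hsL e2.1 e2.2
  exact ⟨f1.1.symm.trans f2.1, f1.2.symm.trans f2.2⟩

theorem uniq_pos [Fintype ι] (a b c : ι → ℝ)
    (hgen : ∀ i j k x : ι, i ≠ j → i ≠ k → j ≠ k → x ≠ i → x ≠ j → x ≠ k →
      chi a b c i j k x ≠ 0)
    {j : ι} {u v w : ℝ} (hz : ∀ q, q ≠ j → 0 < dif a b c j q u v w)
    {x x' y y' : ι} (hx : a x < a j) (hx' : a x' < a j) (hy : a j < a y) (hy' : a j < a y')
    (hR : (univ.filter fun q => a q < a j ∧ chi a b c j y x q < 0).card =
      (univ.filter fun q => a q < a j ∧ chi a b c j y' x' q < 0).card)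
    (hL : (univ.filter fun q => a j < a q ∧ chi a b c j y x q < 0).card =
      (univ.filter fun q => a j < a q ∧ chi a b c j y' x' q < 0).card) :
    x = x' ∧ y = y' := by
  rcases le_total 0 (((c y - c j) * (a x - a j) - (a y - a j) * (c x - c j)) *
        ((a y' - a j) * (b x' - b j) - (b y' - b j) * (a x' - a j)) -
      ((a y - a j) * (b x - b j) - (b y - b j) * (a x - a j)) *
        ((c y' - c j) * (a x' - a j) - (a y' - a j) * (c x' - c j))) with h | h
  · exact uniq_aux a b c hgen hz hx hx' hy hy' hR hL h
  · have := uniq_aux a b c hgen hz hx' hx hy' hy hR.symm hL.symm (by linarith)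
    exact ⟨this.1.symm, this.2.symm⟩

/-- Triples with increasing first coordinates. -/
theorem card_Tpos [Fintype ι] [DecidableEq ι] (a b c : ι → ℝ)
    (hinj : Function.Injective a)
    (hgen : ∀ i j k x : ι, i ≠ j → i ≠ k → j ≠ k → x ≠ i → x ≠ j → x ≠ k →
      chi a b c i j k x ≠ 0)
    (hN : ∀ i, ∃ u v w : ℝ, ∀ q, q ≠ i → 0 < dif a b c i q u v w) :
    ((univ : Finset (ι × ι × ι)).filter fun t => cnt a b c t.1 t.2.1 t.2.2 = 2 ∧
      a t.1 < a t.2.1 ∧ a t.2.1 < a t.2.2).card ≤ 3 * (Fintype.card ι - 4) := by
  classical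
  set N := Fintype.card ι with hNdef
  let nR : ι × ι × ι → ℕ := fun t =>
    (univ.filter fun q => a q < a t.2.1 ∧ chi a b c t.1 t.2.1 t.2.2 q < 0).card
  let nL : ι × ι × ι → ℕ := fun t =>
    (univ.filter fun q => a t.2.1 < a q ∧ chi a b c t.1 t.2.1 t.2.2 q < 0).card
  let rk : ι → ℕ := fun j => (univ.filter fun q => a q < a j).card
  have hrk : ∀ j j', a j < a j' → rk j < rk j' := by
    intro j j' h
    apply Finset.card_lt_card
    rw [Finset.ssubset_iff_of_subset]
    · exact ⟨j, by simp [h], by simp⟩
    · intro q hq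
      simp only [Finset.mem_filter, Finset.mem_univ, true_and] at hq ⊢
      exact hq.trans h
  have hrkinj : ∀ j j', rk j = rk j' → j = j' := by
    intro j j' h
    by_contra hne
    rcases lt_or_gt_of_ne (fun h' => hne (hinj h') : a j ≠ a j') with h' | h'
    · exact absurd h (hrk _ _ h').ne
    · exact absurd h (hrk _ _ h').ne'
  have hsum : ∀ t : ι × ι × ι, nR t + nL t = cnt a b c t.1 t.2.1 t.2.2 := by
    intro t
    show (univ.filter fun q => a q < a t.2.1 ∧ chi a b c t.1 t.2.1 t.2.2 q < 0).card +
      (univ.filter fun q => a t.2.1 < a q ∧ chi a b c t.1 t.2.1 t.2.2 q < 0).card =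
      (univ.filter fun q => chi a b c t.1 t.2.1 t.2.2 q < 0).card
    rw [← Finset.card_union_of_disjoint]
    · congr 1
      ext q
      simp only [Finset.mem_union, Finset.mem_filter, Finset.mem_univ, true_and]
      constructor
      · rintro (h | h) <;> exact h.2
      · intro h
        have hq : a q ≠ a t.2.1 := by
          intro heq
          have := hinj heq
          rw [this, chi_self_mid] at h
          exact lt_irrefl _ h
        rcases lt_or_gt_of_ne hq with h' | h'
        · exact Or.inl ⟨h', h⟩
        · exact Or.inr ⟨h', h⟩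
    · rw [Finset.disjoint_left]
      intro q h1 h2
      simp only [Finset.mem_filter, Finset.mem_univ, true_and] at h1 h2
      exact lt_asymm h1.1 h2.1
  have hR1 : ∀ t : ι × ι × ι, a t.1 < a t.2.1 → nR t + 1 ≤ rk t.2.1 := by
    intro t h
    have hnot : t.1 ∉ (univ.filter fun q => a q < a t.2.1 ∧
        chi a b c t.1 t.2.1 t.2.2 q < 0) := by
      simp only [Finset.mem_filter, Finset.mem_univ, true_and]
      rintro ⟨_, h'⟩
      rw [chi_self_left] at h'
      exact lt_irrefl _ h'
    show (univ.filter fun q => a q < a t.2.1 ∧ chi a b c t.1 t.2.1 t.2.2 q < 0).card + 1 ≤ _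
    rw [← Finset.card_insert_of_notMem hnot]
    apply Finset.card_le_card
    intro q hq
    rw [Finset.mem_insert] at hq
    simp only [Finset.mem_filter, Finset.mem_univ, true_and] at hq ⊢
    rcases hq with rfl | hq
    · exact h
    · exact hq.1
  have hL1 : ∀ t : ι × ι × ι, a t.2.1 < a t.2.2 → nL t + rk t.2.1 + 2 ≤ N := by
    intro t h
    have hnot : t.2.2 ∉ (univ.filter fun q => a t.2.1 < a q ∧
        chi a b c t.1 t.2.1 t.2.2 q < 0) := by
      simp only [Finset.mem_filter, Finset.mem_univ, true_and]
      rintro ⟨_, h'⟩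
      rw [chi_self_right] at h'
      exact lt_irrefl _ h'
    have h1 : (univ.filter fun q => a t.2.1 < a q ∧ chi a b c t.1 t.2.1 t.2.2 q < 0).card + 1 ≤
        (univ.filter fun q => a t.2.1 < a q).card := by
      rw [← Finset.card_insert_of_notMem hnot]
      apply Finset.card_le_card
      intro q hq
      rw [Finset.mem_insert] at hq
      simp only [Finset.mem_filter, Finset.mem_univ, true_and] at hq ⊢
      rcases hq with rfl | hq
      · exact h
      · exact hq.1
    have h2 : (univ.filter fun q => a t.2.1 < a q).card + rk t.2.1 + 1 = N := by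
      show (univ.filter fun q => a t.2.1 < a q).card +
        (univ.filter fun q => a q < a t.2.1).card + 1 = N
      rw [← Finset.card_union_of_disjoint]
      · have hnot2 : t.2.1 ∉ (univ.filter fun q => a t.2.1 < a q) ∪
            (univ.filter fun q => a q < a t.2.1) := by simp
        rw [← Finset.card_insert_of_notMem hnot2, hNdef, ← Finset.card_univ]
        congr 1
        ext q
        simp only [Finset.mem_insert, Finset.mem_union, Finset.mem_filter, Finset.mem_univ,
          true_and, iff_true]
        by_cases hq : q = t.2.1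
        · exact Or.inl hq
        · right
          rcases lt_or_gt_of_ne (fun h' => hq (hinj h') : a q ≠ a t.2.1) with h' | h'
          · exact Or.inr h'
          · exact Or.inl h'
      · rw [Finset.disjoint_left]
        intro q h1 h2
        simp only [Finset.mem_filter, Finset.mem_univ, true_and] at h1 h2
        exact lt_asymm h1 h2
    show (univ.filter fun q => a t.2.1 < a q ∧ chi a b c t.1 t.2.1 t.2.2 q < 0).card +
      rk t.2.1 + 2 ≤ N
    omega
  have hcardprod : (Finset.range 3 ×ˢ Finset.range (N - 4)).card = 3 * (N - 4) := by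
    rw [Finset.card_product, Finset.card_range, Finset.card_range]
  rw [← hcardprod]
  refine Finset.card_le_card_of_injOn (fun t => (nR t, rk t.2.1 - nR t - 1)) ?_ ?_
  · intro t ht
    simp only [Finset.coe_filter, Finset.mem_univ, true_and, Set.mem_ofPred_eq] at ht
    obtain ⟨h1, h2, h3⟩ := ht
    have e1 := hsum t
    have e2 := hR1 t h2
    have e3 := hL1 t h3
    simp only [Finset.coe_product, Set.mem_prod, Finset.mem_coe, Finset.mem_range]
    omega
  · intro t ht t' ht' heq
    simp only [Finset.coe_filter, Finset.mem_univ, true_and, Set.mem_ofPred_eq] at ht ht'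
    obtain ⟨h1, h2, h3⟩ := ht
    obtain ⟨h1', h2', h3'⟩ := ht'
    have e1 := hsum t
    have e1' := hsum t'
    have e2 := hR1 t h2
    have e2' := hR1 t' h2'
    simp only [Prod.mk.injEq] at heq
    obtain ⟨g1, g2⟩ := heq
    have hj : t.2.1 = t'.2.1 := by
      apply hrkinj
      omega
    obtain ⟨i, j, k⟩ := t
    obtain ⟨i', j', k'⟩ := t'
    simp only at hj h1 h2 h3 h1' h2' h3' g1
    subst hj
    obtain ⟨u, v, w, hz⟩ := hN j
    have hrot : ∀ p r q, chi a b c j r p q = chi a b c p j r q := by
      intro p r q; unfold chi; ring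
    have := uniq_pos a b c hgen hz (x := i) (x' := i') (y := k) (y' := k') h2 h2' h3 h3'
      (by simp only [hrot]; exact g1)
      (by
        simp only [hrot]
        have s1 : nR (i, j, k) + nL (i, j, k) = 2 := by rw [hsum]; exact h1
        have s2 : nR (i', j, k') + nL (i', j, k') = 2 := by rw [hsum]; exact h1'
        have g3 : nL (i, j, k) = nL (i', j, k') := by omega
        exact g3)
    rw [this.1, this.2]

/-- The number of ordered triples with exactly two indices below. -/
theorem card_T [Fintype ι] [DecidableEq ι] (a b c : ι → ℝ)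
    (hinj : Function.Injective a)
    (hgen : ∀ i j k x : ι, i ≠ j → i ≠ k → j ≠ k → x ≠ i → x ≠ j → x ≠ k →
      chi a b c i j k x ≠ 0)
    (hN : ∀ i, ∃ u v w : ℝ, ∀ q, q ≠ i → 0 < dif a b c i q u v w) :
    ((univ : Finset (ι × ι × ι)).filter fun t => cnt a b c t.1 t.2.1 t.2.2 = 2).card ≤
      18 * (Fintype.card ι - 4) := by
  classical
  set T := (univ : Finset (ι × ι × ι)).filter fun t => cnt a b c t.1 t.2.1 t.2.2 = 2 with hT
  set Tp := (univ : Finset (ι × ι × ι)).filter fun t => cnt a b c t.1 t.2.1 t.2.2 = 2 ∧
      a t.1 < a t.2.1 ∧ a t.2.1 < a t.2.2 with hTp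
  set Tm := (univ : Finset (ι × ι × ι)).filter fun t => cnt a b c t.1 t.2.1 t.2.2 = 2 ∧
      a t.2.1 < a t.1 ∧ a t.2.2 < a t.2.1 with hTm
  have h1 : Tp.card ≤ 3 * (Fintype.card ι - 4) := card_Tpos a b c hinj hgen hN
  have hchi : ∀ i j k x, chi (fun q => - a q) (fun q => - b q) c i j k x =
      chi a b c i j k x := by
    intro i j k x; unfold chi; ring
  have h2 : Tm.card ≤ 3 * (Fintype.card ι - 4) := by
    have := card_Tpos (fun q => - a q) (fun q => - b q) c
      (fun i j h => hinj (neg_injective h))
      (by intro i j k x; rw [hchi]; exact hgen i j k x)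
      (by
        intro i
        obtain ⟨u, v, w, hz⟩ := hN i
        refine ⟨-u, -v, w, fun q hq => ?_⟩
        have := hz q hq
        unfold dif at this ⊢
        linarith)
    refine le_trans (le_of_eq ?_) this
    congr 1
    ext t
    rw [hTm, Finset.mem_filter, Finset.mem_filter]
    simp only [Finset.mem_univ, true_and, neg_lt_neg_iff, cnt, hchi]
  let rot : ι × ι × ι → ι × ι × ι := fun t => (t.2.1, t.2.2, t.1)
  have hcnt : ∀ i j k, cnt a b c j k i = cnt a b c i j k := by
    intro i j k
    unfold cnt
    simp only [chi_rot]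
  have hsub : T ⊆ (Tp ∪ Tm) ∪ ((Tp ∪ Tm).image rot ∪ ((Tp ∪ Tm).image rot).image rot) := by
    rintro ⟨i, j, k⟩ ht
    have hc : cnt a b c i j k = 2 := (Finset.mem_filter.mp ht).2
    have hne : ∀ i j k, cnt a b c i j k = 2 → i ≠ j := by
      rintro i j k h rfl
      have : cnt a b c i i k = 0 := by
        unfold cnt
        rw [Finset.card_eq_zero, Finset.filter_eq_empty_iff]
        intro x _
        unfold chi
        have : (a x - a i) * ((b i - b i) * (c k - c i) - (c i - c i) * (b k - b i)) +
          (b x - b i) * ((c i - c i) * (a k - a i) - (a i - a i) * (c k - c i)) +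
          (c x - c i) * ((a i - a i) * (b k - b i) - (b i - b i) * (a k - a i)) = 0 := by ring
        rw [this]; exact lt_irrefl _
      omega
    have hij := hne i j k hc
    have hjk : j ≠ k := hne j k i (by rw [hcnt]; exact hc)
    have hki : k ≠ i := hne k i j (by rw [hcnt, hcnt]; exact hc)
    have aij : a i ≠ a j := fun h => hij (hinj h)
    have ajk : a j ≠ a k := fun h => hjk (hinj h)
    have aki : a k ≠ a i := fun h => hki (hinj h)
    have hmed : ∀ i j k, cnt a b c i j k = 2 → (a i < a j ∧ a j < a k) ∨ (a j < a i ∧ a k < a j) →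
        (i, j, k) ∈ Tp ∪ Tm := by
      intro i j k hc h
      rw [Finset.mem_union]
      rcases h with h | h
      · left; simp only [hTp, Finset.mem_filter, Finset.mem_univ, true_and]; exact ⟨hc, h⟩
      · right; simp only [hTm, Finset.mem_filter, Finset.mem_univ, true_and]; exact ⟨hc, h⟩
    by_cases hj : (a i < a j ∧ a j < a k) ∨ (a j < a i ∧ a k < a j)
    · exact Finset.mem_union_left _ (hmed i j k hc hj)
    · apply Finset.mem_union_right
      by_cases hk : (a j < a k ∧ a k < a i) ∨ (a k < a j ∧ a i < a k)
      · -- median is k : triple (j,k,i)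
        apply Finset.mem_union_right
        have hm := hmed j k i (by rw [hcnt]; exact hc) hk
        rw [Finset.mem_image]
        refine ⟨(k, i, j), ?_, rfl⟩
        rw [Finset.mem_image]
        exact ⟨(j, k, i), hm, rfl⟩
      · -- median is i : triple (k,i,j)
        apply Finset.mem_union_left
        have hi : (a k < a i ∧ a i < a j) ∨ (a i < a k ∧ a j < a i) := by
          rcases lt_or_gt_of_ne aij with h1 | h1 <;> rcases lt_or_gt_of_ne ajk with h2 | h2 <;>
            rcases lt_or_gt_of_ne aki with h3 | h3 <;> tauto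
        have hm := hmed k i j (by rw [hcnt, hcnt]; exact hc) hi
        rw [Finset.mem_image]
        exact ⟨(k, i, j), hm, rfl⟩
  have h3 : (Tp ∪ Tm).card ≤ 6 * (Fintype.card ι - 4) := by
    refine le_trans (Finset.card_union_le _ _) ?_
    omega
  calc T.card ≤ _ := Finset.card_le_card hsub
    _ ≤ (Tp ∪ Tm).card + ((Tp ∪ Tm).card + (Tp ∪ Tm).card) := by
        refine le_trans (Finset.card_union_le _ _) (Nat.add_le_add_left ?_ _)
        refine le_trans (Finset.card_union_le _ _) (Nat.add_le_add ?_ ?_)
        · exact Finset.card_image_le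
        · exact le_trans Finset.card_image_le Finset.card_image_le
    _ ≤ 18 * (Fintype.card ι - 4) := by omega

/-- Theorem A for families in general position: ordered pairs of order at most two. -/
theorem bound_generic [Fintype ι] [DecidableEq ι] (a b c : ι → ℝ)
    (hinj : Function.Injective a)
    (hgen : ∀ i j k x : ι, i ≠ j → i ≠ k → j ≠ k → x ≠ i → x ≠ j → x ≠ k →
      chi a b c i j k x ≠ 0)
    (hN : ∀ i, ∃ u v w : ℝ, ∀ q, q ≠ i → 0 < dif a b c i q u v w)
    (hcard : 7 ≤ Fintype.card ι) (E : Finset (ι × ι))
    (hE : ∀ p ∈ E, p.1 ≠ p.2 ∧ ∃ u v w : ℝ, dif a b c p.1 p.2 u v w = 0 ∧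
      (univ.filter fun x => x ≠ p.1 ∧ x ≠ p.2 ∧ dif a b c p.1 x u v w ≤ 0).card ≤ 2) :
    E.card ≤ 18 * (Fintype.card ι - 4) := by
  classical
  refine le_trans ?_ (card_T a b c hinj hgen hN)
  have hex : ∀ p ∈ E, ∃ k, cnt a b c p.1 p.2 k = 2 := by
    intro p hp
    obtain ⟨h1, u, v, w, h2, h3⟩ := hE p hp
    exact exists_third a b c hgen hcard h1 h2 h3
  have : Nonempty ι := Fintype.card_pos_iff.mp (by omega)
  choose! f hf using hex
  refine Finset.card_le_card_of_injOn (fun p => (p.1, p.2, f p)) ?_ ?_
  · intro p hp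
    simp only [Finset.coe_filter, Finset.mem_univ, true_and, Set.mem_ofPred_eq]
    exact hf p hp
  · intro p _ p' _ h
    simp only [Prod.mk.injEq] at h
    exact Prod.ext h.1 h.2.1

end Pool.Agent.Helper67.SIG
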