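import Mathlib

/-!
# Sphere-of-influence graphs in the plane
-/

open Finset

namespace Pool.Agent.Helper67.SIG

/-- The Euclidean plane. -/
abbrev Pl : Type := EuclideanSpace ℝ (Fin 2)

/-- Distance from `p` to the nearest other point of `P`. -/
noncomputable def rad (P : Finset Pl) (p : Pl) : ℝ :=
  sInf ((fun q => dist p q) '' ((P : Set Pl) \ {p}))

/-- The sphere-of-influence graph (open discs). -/
def sig (P : Finset Pl) : SimpleGraph Pl where
  Adj p q := p ∈ P ∧ q ∈ P ∧ p ≠ q ∧ dist p q < rad P p + rad P q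
  symm := ⟨fun _ _ h => ⟨h.2.1, h.1, h.2.2.1.symm, by rw [dist_comm, add_comm]; exact h.2.2.2⟩⟩
  loopless := ⟨fun _ h => h.2.2.1 rfl⟩

/-- The closed sphere-of-influence graph (closed discs). -/
def csig (P : Finset Pl) : SimpleGraph Pl where
  Adj p q := p ∈ P ∧ q ∈ P ∧ p ≠ q ∧ dist p q ≤ rad P p + rad P q
  symm := ⟨fun _ _ h => ⟨h.2.1, h.1, h.2.2.1.symm, by rw [dist_comm, add_comm]; exact h.2.2.2⟩⟩
  loopless := ⟨fun _ h => h.2.2.1 rfl⟩

theorem rad_le {P : Finset Pl} {p q : Pl} (hq : q ∈ P) (h : q ≠ p) : rad P p ≤ dist p q := by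
  apply csInf_le
  · exact ⟨0, by rintro _ ⟨x, _, rfl⟩; exact dist_nonneg⟩
  · exact ⟨q, ⟨hq, by simpa using h⟩, rfl⟩

theorem rad_pos {P : Finset Pl} {p : Pl} (h : ∃ q ∈ P, q ≠ p) : 0 < rad P p := by
  have hfin : ((fun q => dist p q) '' ((P : Set Pl) \ {p})).Finite :=
    (P.finite_toSet.sdiff).image _
  have hne : ((fun q => dist p q) '' ((P : Set Pl) \ {p})).Nonempty := by
    obtain ⟨q, hq, hqp⟩ := h
    exact ⟨_, q, ⟨hq, by simpa using hqp⟩, rfl⟩
  obtain ⟨q, ⟨_, hq2⟩, hq⟩ := hne.csInf_mem hfin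
  unfold rad
  rw [← hq]
  exact dist_pos.mpr (fun h => hq2 (by simp [h]))

end Pool.Agent.Helper67.SIG
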