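import Pool.Agent.Helper67.SIG.Core
import Pool.Agent.Helper67.SIG.Defs

/-!
# Step 1: the witness of an edge

For a point `p` of the plane with weight `r²` the vector is
`(-2 p 0, -2 p 1, p 0 ^ 2 + p 1 ^ 2 - r ^ 2)`, and the linear form at `(o 0, o 1, 1)` is
`|o - p|² - r² - |o|²`.
-/

open Finset

namespace Pool.Agent.Helper67.SIG

/-- first coordinate -/
noncomputable def ga (p : Pl) : ℝ := -2 * p 0
/-- second coordinate -/
noncomputable def gb (p : Pl) : ℝ := -2 * p 1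
/-- third coordinate -/
noncomputable def gc (P : Finset Pl) (p : Pl) : ℝ := p 0 ^ 2 + p 1 ^ 2 - rad P p ^ 2

theorem dist_sq (p q : Pl) : dist p q ^ 2 = (p 0 - q 0) ^ 2 + (p 1 - q 1) ^ 2 := by
  rw [EuclideanSpace.dist_eq, Real.sq_sqrt (Finset.sum_nonneg fun _ _ => sq_nonneg _),
    Fin.sum_univ_two, Real.dist_eq, Real.dist_eq, sq_abs, sq_abs]

theorem rad_sq_le {P : Finset Pl} {p q : Pl} (_hp : p ∈ P) (hq : q ∈ P) (h : q ≠ p) :
    rad P p ^ 2 ≤ (p 0 - q 0) ^ 2 + (p 1 - q 1) ^ 2 := by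
  rw [← dist_sq]
  exact pow_le_pow_left₀ (rad_pos ⟨q, hq, h⟩).le (rad_le hq h) 2

/-- No site is hidden: at the point `p` itself the form of `p` is the smallest. -/
theorem geo_hidden (P : Finset Pl) (_hP : 2 ≤ P.card) (p : Pl) (hp : p ∈ P) (q : Pl) (hq : q ∈ P)
    (hne : q ≠ p) :
    0 < (ga q - ga p) * p 0 + (gb q - gb p) * p 1 + (gc P q - gc P p) * 1 := by
  have h1 := rad_sq_le hq hp hne.symm
  have h2 := rad_pos ⟨q, hq, hne⟩
  have h3 : 0 < rad P p ^ 2 := by positivity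
  have e : (ga q - ga p) * p 0 + (gb q - gb p) * p 1 + (gc P q - gc P p) * 1 =
      (q 0 - p 0) ^ 2 + (q 1 - p 1) ^ 2 - rad P q ^ 2 + rad P p ^ 2 := by
    unfold ga gb gc; ring
  rw [e]; linarith

theorem cone_aux {X Y x y s : ℝ} (hs0 : 0 < s) (hs1 : s < 1)
    (h1 : 2 * (-s) * (x * X + y * Y) < x ^ 2 + y ^ 2)
    (h2 : 2 * (-s) * (x * X + y * Y) < s ^ 2 * (X ^ 2 + Y ^ 2))
    (h3 : 2 * (1 - s) * (x * X + y * Y) < x ^ 2 + y ^ 2)
    (h4 : 2 * (1 - s) * (x * X + y * Y) < (1 - s) ^ 2 * (X ^ 2 + Y ^ 2)) :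
    4 * (x * X + y * Y) ^ 2 < (x ^ 2 + y ^ 2) * (X ^ 2 + Y ^ 2) := by
  rcases le_total 0 (x * X + y * Y) with h | h
  · have hL : 0 ≤ 2 * (1 - s) * (x * X + y * Y) := by
      have : 0 ≤ 1 - s := by linarith
      positivity
    have h5 := mul_lt_mul'' h3 h4 hL hL
    have h6 : 0 < (1 - s) ^ 2 := by
      have : 0 < 1 - s := by linarith
      positivity
    have h7 : (1 - s) ^ 2 * (4 * (x * X + y * Y) ^ 2) <
        (1 - s) ^ 2 * ((x ^ 2 + y ^ 2) * (X ^ 2 + Y ^ 2)) := by linarith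
    exact lt_of_mul_lt_mul_left h7 h6.le
  · have hL : 0 ≤ 2 * (-s) * (x * X + y * Y) := by
      have : 0 ≤ 2 * s * (-(x * X + y * Y)) := by
        have : 0 ≤ -(x * X + y * Y) := by linarith
        positivity
      linarith
    have h5 := mul_lt_mul'' h1 h2 hL hL
    have h6 : 0 < s ^ 2 := by positivity
    have h7 : s ^ 2 * (4 * (x * X + y * Y) ^ 2) <
        s ^ 2 * ((x ^ 2 + y ^ 2) * (X ^ 2 + Y ^ 2)) := by linarith
    exact lt_of_mul_lt_mul_left h7 h6.le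

theorem no_two {X Y x y x' y' : ℝ}
    (h1 : 4 * (x * X + y * Y) ^ 2 < (x ^ 2 + y ^ 2) * (X ^ 2 + Y ^ 2))
    (h2 : 4 * (x' * X + y' * Y) ^ 2 < (x' ^ 2 + y' ^ 2) * (X ^ 2 + Y ^ 2))
    (h3 : 2 * (x * x' + y * y') < x ^ 2 + y ^ 2) (h4 : 2 * (x * x' + y * y') < x' ^ 2 + y' ^ 2)
    (h5 : 0 < (x * Y - y * X) * (x' * Y - y' * X)) : False := by
  set σ := Real.sqrt (x ^ 2 + y ^ 2) with hσ
  set τ := Real.sqrt (x' ^ 2 + y' ^ 2) with hτ
  set δ := Real.sqrt (X ^ 2 + Y ^ 2) with hδ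
  have eσ : σ ^ 2 = x ^ 2 + y ^ 2 := Real.sq_sqrt (by positivity)
  have eτ : τ ^ 2 = x' ^ 2 + y' ^ 2 := Real.sq_sqrt (by positivity)
  have eδ : δ ^ 2 = X ^ 2 + Y ^ 2 := Real.sq_sqrt (by positivity)
  have σ0 : 0 ≤ σ := Real.sqrt_nonneg _
  have τ0 : 0 ≤ τ := Real.sqrt_nonneg _
  have δ0 : 0 ≤ δ := Real.sqrt_nonneg _
  have t1 : |x * X + y * Y| < σ * δ / 2 := by
    apply abs_lt_of_sq_lt_sq _ (by positivity)
    have : (σ * δ / 2) ^ 2 = (x ^ 2 + y ^ 2) * (X ^ 2 + Y ^ 2) / 4 := by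
      rw [← eσ, ← eδ]; ring
    rw [this]; linarith
  have t2 : |x' * X + y' * Y| < τ * δ / 2 := by
    apply abs_lt_of_sq_lt_sq _ (by positivity)
    have : (τ * δ / 2) ^ 2 = (x' ^ 2 + y' ^ 2) * (X ^ 2 + Y ^ 2) / 4 := by
      rw [← eτ, ← eδ]; ring
    rw [this]; linarith
  have hTT : -(σ * τ * δ ^ 2 / 4) ≤ (x * X + y * Y) * (x' * X + y' * Y) := by
    have h6 : |(x * X + y * Y) * (x' * X + y' * Y)| ≤ (σ * δ / 2) * (τ * δ / 2) := by
      rw [abs_mul]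
      exact mul_le_mul t1.le t2.le (abs_nonneg _) (by positivity)
    have h7 := (abs_le.mp h6).1
    have h8 : (σ * δ / 2) * (τ * δ / 2) = σ * τ * δ ^ 2 / 4 := by ring
    rw [h8] at h7; exact h7
  have k1 : 3 / 4 * (σ ^ 2 * δ ^ 2) < (x * Y - y * X) ^ 2 := by
    have e : (x * Y - y * X) ^ 2 = (x ^ 2 + y ^ 2) * (X ^ 2 + Y ^ 2) - (x * X + y * Y) ^ 2 := by ring
    rw [e, eσ, eδ]; linarith
  have k2 : 3 / 4 * (τ ^ 2 * δ ^ 2) < (x' * Y - y' * X) ^ 2 := by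
    have e : (x' * Y - y' * X) ^ 2 =
        (x' ^ 2 + y' ^ 2) * (X ^ 2 + Y ^ 2) - (x' * X + y' * Y) ^ 2 := by ring
    rw [e, eτ, eδ]; linarith
  have hKK : 3 / 4 * (σ * τ * δ ^ 2) < (x * Y - y * X) * (x' * Y - y' * X) := by
    apply lt_of_pow_lt_pow_left₀ 2 h5.le
    have h6 := mul_lt_mul'' k1 k2 (by positivity) (by positivity)
    calc (3 / 4 * (σ * τ * δ ^ 2)) ^ 2
        = 3 / 4 * (σ ^ 2 * δ ^ 2) * (3 / 4 * (τ ^ 2 * δ ^ 2)) := by ring
      _ < (x * Y - y * X) ^ 2 * (x' * Y - y' * X) ^ 2 := h6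
      _ = _ := by ring
  have hid : (x * x' + y * y') * δ ^ 2 =
      (x * X + y * Y) * (x' * X + y' * Y) + (x * Y - y * X) * (x' * Y - y' * X) := by
    rw [eδ]; ring
  have hδ2 : 0 ≤ δ ^ 2 := by positivity
  rcases le_total σ τ with h | h
  · have h6 : 2 * (x * x' + y * y') ≤ σ * τ := by
      have : σ ^ 2 ≤ σ * τ := by nlinarith
      linarith
    have h7 := mul_le_mul_of_nonneg_right h6 hδ2
    linarith
  · have h6 : 2 * (x * x' + y * y') ≤ σ * τ := by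
      have : τ ^ 2 ≤ σ * τ := by nlinarith
      linarith
    have h7 := mul_le_mul_of_nonneg_right h6 hδ2
    linarith

/-- The witness of an edge of the open graph: at most two other points are at least as deep. -/
theorem geo_witness (P : Finset Pl) (p q : Pl) (h : (sig P).Adj p q) :
    ∃ u v : ℝ, (ga q - ga p) * u + (gb q - gb p) * v + (gc P q - gc P p) * 1 = 0 ∧
      (P.filter fun x => x ≠ p ∧ x ≠ q ∧
        (ga x - ga p) * u + (gb x - gb p) * v + (gc P x - gc P p) * 1 ≤ 0).card ≤ 2 := by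
  obtain ⟨hp, hq, hpq, hlt⟩ := h
  have hrp := rad_pos ⟨q, hq, hpq.symm⟩
  have hrq := rad_pos ⟨p, hp, hpq⟩
  have hdp : rad P p ≤ dist p q := rad_le hq hpq.symm
  have hdq : rad P q ≤ dist p q := by rw [dist_comm]; exact rad_le hp hpq
  have hd : 0 < dist p q := dist_pos.mpr hpq
  set D := dist p q with hD
  set rp := rad P p with hrp'
  set rq := rad P q with hrq'
  set X := q 0 - p 0 with hX
  set Y := q 1 - p 1 with hY
  have hD2 : X ^ 2 + Y ^ 2 = D ^ 2 := by rw [hD, dist_sq]; ring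
  set s := (D ^ 2 + rp ^ 2 - rq ^ 2) / (2 * D ^ 2) with hs
  have hsD : 2 * s * D ^ 2 = D ^ 2 + rp ^ 2 - rq ^ 2 := by
    rw [hs]; field_simp
  have hD2pos : 0 < D ^ 2 := by positivity
  have hrp2 : rp ^ 2 ≤ D ^ 2 := pow_le_pow_left₀ hrp.le hdp 2
  have hrq2 : rq ^ 2 ≤ D ^ 2 := pow_le_pow_left₀ hrq.le hdq 2
  have hs0 : 0 < s := by
    have h1 : 0 < 2 * s * D ^ 2 := by rw [hsD]; nlinarith
    by_contra hcon
    push Not at hcon
    nlinarith
  have hs1 : s < 1 := by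
    have h1 : 2 * s * D ^ 2 < 2 * D ^ 2 := by rw [hsD]; nlinarith
    by_contra hcon
    push Not at hcon
    nlinarith
  -- the power at the witness is negative
  have hpi : s ^ 2 * D ^ 2 < rp ^ 2 := by
    -- (D - rp)² < rq²
    have h1 : (D - rp) ^ 2 < rq ^ 2 := by
      apply pow_lt_pow_left₀ (by linarith) (by linarith) (by norm_num)
    -- 2 s D² < 2 D rp
    have h2 : s * D < rp := by
      have h3 : 2 * s * D ^ 2 < 2 * D * rp := by rw [hsD]; nlinarith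
      have h4 : D * (s * D) < D * rp := by nlinarith
      exact lt_of_mul_lt_mul_left h4 hd.le
    have h3 : 0 ≤ s * D := by positivity
    nlinarith
  have hpi' : (1 - s) ^ 2 * D ^ 2 < rq ^ 2 := by nlinarith
  set u := p 0 + s * X with hu
  set v := p 1 + s * Y with hv
  refine ⟨u, v, ?_, ?_⟩
  · have e : (ga q - ga p) * u + (gb q - gb p) * v + (gc P q - gc P p) * 1 =
        (X ^ 2 + Y ^ 2) * (1 - 2 * s) - rq ^ 2 + rp ^ 2 := by
      rw [hu, hv, hX, hY]; unfold ga gb gc; ring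
    rw [e, hD2]; linarith
  -- depth of another point
  have hdeep : ∀ x ∈ P, (ga x - ga p) * u + (gb x - gb p) * v + (gc P x - gc P p) * 1 ≤ 0 →
      (x 0 - u) ^ 2 + (x 1 - v) ^ 2 < rad P x ^ 2 := by
    intro x _ hle
    have e : (ga x - ga p) * u + (gb x - gb p) * v + (gc P x - gc P p) * 1 =
        (x 0 - u) ^ 2 + (x 1 - v) ^ 2 - rad P x ^ 2 - (s ^ 2 * (X ^ 2 + Y ^ 2) - rp ^ 2) := by
      rw [hu, hv, hX, hY]; unfold ga gb gc; ring
    rw [e, hD2] at hle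
    linarith
  -- cone condition
  have hcone : ∀ x ∈ P, x ≠ p → x ≠ q →
      (ga x - ga p) * u + (gb x - gb p) * v + (gc P x - gc P p) * 1 ≤ 0 →
      4 * ((x 0 - u) * X + (x 1 - v) * Y) ^ 2 <
        ((x 0 - u) ^ 2 + (x 1 - v) ^ 2) * (X ^ 2 + Y ^ 2) := by
    intro x hx hxp hxq hle
    have h1 := hdeep x hx hle
    have h2 := rad_sq_le hx hp hxp.symm
    have h3 := rad_sq_le hp hx hxp
    have h4 := rad_sq_le hx hq hxq.symm
    have h5 := rad_sq_le hq hx hxq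
    have e1 : (x 0 - p 0) ^ 2 + (x 1 - p 1) ^ 2 = (x 0 - u) ^ 2 + (x 1 - v) ^ 2 +
        s ^ 2 * (X ^ 2 + Y ^ 2) - 2 * (-s) * ((x 0 - u) * X + (x 1 - v) * Y) := by
      rw [hu, hv]; ring
    have e2 : (x 0 - q 0) ^ 2 + (x 1 - q 1) ^ 2 = (x 0 - u) ^ 2 + (x 1 - v) ^ 2 +
        (1 - s) ^ 2 * (X ^ 2 + Y ^ 2) - 2 * (1 - s) * ((x 0 - u) * X + (x 1 - v) * Y) := by
      rw [hu, hv, hX, hY]; ring
    have e3 : (p 0 - x 0) ^ 2 + (p 1 - x 1) ^ 2 = (x 0 - p 0) ^ 2 + (x 1 - p 1) ^ 2 := by ring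
    have e4 : (q 0 - x 0) ^ 2 + (q 1 - x 1) ^ 2 = (x 0 - q 0) ^ 2 + (x 1 - q 1) ^ 2 := by ring
    rw [e3] at h3
    rw [e4] at h5
    rw [hD2] at e1 e2
    refine cone_aux hs0 hs1 ?_ ?_ ?_ ?_
    · linarith
    · rw [hD2]; linarith
    · linarith
    · rw [hD2]; linarith
  -- two points on the same side are impossible
  have hside : ∀ x ∈ P, x ≠ p → x ≠ q →
      (ga x - ga p) * u + (gb x - gb p) * v + (gc P x - gc P p) * 1 ≤ 0 →
      ∀ y ∈ P, y ≠ p → y ≠ q →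
      (ga y - ga p) * u + (gb y - gb p) * v + (gc P y - gc P p) * 1 ≤ 0 → x ≠ y →
      ¬ 0 < ((x 0 - u) * Y - (x 1 - v) * X) * ((y 0 - u) * Y - (y 1 - v) * X) := by
    intro x hx hxp hxq hxle y hy hyp hyq hyle hxy hcon
    have h1 := hdeep x hx hxle
    have h2 := hdeep y hy hyle
    have h3 := rad_sq_le hx hy hxy.symm
    have h4 := rad_sq_le hy hx hxy
    have e1 : (x 0 - y 0) ^ 2 + (x 1 - y 1) ^ 2 = (x 0 - u) ^ 2 + (x 1 - v) ^ 2 +
        ((y 0 - u) ^ 2 + (y 1 - v) ^ 2) -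
          2 * ((x 0 - u) * (y 0 - u) + (x 1 - v) * (y 1 - v)) := by ring
    have e2 : (y 0 - x 0) ^ 2 + (y 1 - x 1) ^ 2 = (x 0 - y 0) ^ 2 + (x 1 - y 1) ^ 2 := by ring
    rw [e2] at h4
    exact no_two (hcone x hx hxp hxq hxle) (hcone y hy hyp hyq hyle) (by linarith) (by linarith)
      hcon
  have hnz : ∀ x ∈ P, x ≠ p → x ≠ q →
      (ga x - ga p) * u + (gb x - gb p) * v + (gc P x - gc P p) * 1 ≤ 0 →
      (x 0 - u) * Y - (x 1 - v) * X ≠ 0 := by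
    intro x hx hxp hxq hxle h0
    have h1 := hcone x hx hxp hxq hxle
    have e : ((x 0 - u) * Y - (x 1 - v) * X) ^ 2 =
        ((x 0 - u) ^ 2 + (x 1 - v) ^ 2) * (X ^ 2 + Y ^ 2) -
          ((x 0 - u) * X + (x 1 - v) * Y) ^ 2 := by ring
    have h2 := sq_nonneg ((x 0 - u) * X + (x 1 - v) * Y)
    have e' : (0 : ℝ) = ((x 0 - u) ^ 2 + (x 1 - v) ^ 2) * (X ^ 2 + Y ^ 2) -
          ((x 0 - u) * X + (x 1 - v) * Y) ^ 2 := by
      rw [← e, h0]; ring
    clear_value u v X Y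
    generalize ((x 0 - u) ^ 2 + (x 1 - v) ^ 2) * (X ^ 2 + Y ^ 2) = A at h1 e'
    generalize ((x 0 - u) * X + (x 1 - v) * Y) ^ 2 = B at h1 h2 e'
    linarith
  classical
  set S := P.filter fun x => x ≠ p ∧ x ≠ q ∧
        (ga x - ga p) * u + (gb x - gb p) * v + (gc P x - gc P p) * 1 ≤ 0 with hS
  have hsplit : S = (S.filter fun x => 0 < (x 0 - u) * Y - (x 1 - v) * X) ∪
      (S.filter fun x => (x 0 - u) * Y - (x 1 - v) * X < 0) := by
    ext x
    simp only [Finset.mem_union, Finset.mem_filter]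
    constructor
    · intro hx
      have hx' := Finset.mem_filter.mp hx
      rcases lt_or_gt_of_ne (hnz x hx'.1 hx'.2.1 hx'.2.2.1 hx'.2.2.2) with h | h
      · exact Or.inr ⟨hx, h⟩
      · exact Or.inl ⟨hx, h⟩
    · rintro (h | h) <;> exact h.1
  have c1 : (S.filter fun x => 0 < (x 0 - u) * Y - (x 1 - v) * X).card ≤ 1 := by
    rw [Finset.card_le_one]
    intro x hx y hy
    by_contra hxy
    have hx1 := Finset.mem_filter.mp hx
    have hx2 := Finset.mem_filter.mp hx1.1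
    have hy1 := Finset.mem_filter.mp hy
    have hy2 := Finset.mem_filter.mp hy1.1
    exact hside x hx2.1 hx2.2.1 hx2.2.2.1 hx2.2.2.2 y hy2.1 hy2.2.1 hy2.2.2.1 hy2.2.2.2 hxy
      (mul_pos hx1.2 hy1.2)
  have c2 : (S.filter fun x => (x 0 - u) * Y - (x 1 - v) * X < 0).card ≤ 1 := by
    rw [Finset.card_le_one]
    intro x hx y hy
    by_contra hxy
    have hx1 := Finset.mem_filter.mp hx
    have hx2 := Finset.mem_filter.mp hx1.1
    have hy1 := Finset.mem_filter.mp hy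
    have hy2 := Finset.mem_filter.mp hy1.1
    exact hside x hx2.1 hx2.2.1 hx2.2.2.1 hx2.2.2.2 y hy2.1 hy2.2.1 hy2.2.2.1 hy2.2.2.2 hxy
      (mul_pos_of_neg_of_neg hx1.2 hy1.2)
  rw [hsplit]
  refine le_trans (Finset.card_union_le _ _) ?_
  omega

end Pool.Agent.Helper67.SIG
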