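import Pool.Agent.Helper67.SIG.Pert
import Pool.Agent.Helper67.SIG.Geo

/-!
# Assembly: the open sphere-of-influence graph has at most `9 n - 36` edges
-/

open Finset

namespace Pool.Agent.Helper67.SIG

open Classical in
/-- Ordered adjacent pairs and edges. -/
theorem two_mul_edges (P : Finset Pl) (G : SimpleGraph Pl)
    (hG : ∀ p q, G.Adj p q → p ∈ P ∧ q ∈ P) :
    2 * G.edgeSet.ncard = ((univ : Finset (P × P)).filter fun t => G.Adj t.1 t.2).card := by
  set H : SimpleGraph P := G.comap (fun x : P => (x : Pl)) with hH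
  have hmap : G = H.map (Function.Embedding.subtype (· ∈ P)) := by
    ext p q
    rw [SimpleGraph.map_adj]
    constructor
    · intro h
      exact ⟨⟨p, (hG p q h).1⟩, ⟨q, (hG p q h).2⟩, h, rfl, rfl⟩
    · rintro ⟨x, y, h, rfl, rfl⟩
      exact h
  have hset : G.edgeSet = (Function.Embedding.subtype (· ∈ P)).sym2Map '' H.edgeSet := by
    conv_lhs => rw [hmap]
    exact SimpleGraph.edgeSet_map _ _
  have h1 : G.edgeSet.ncard = H.edgeFinset.card := by
    rw [hset, Set.ncard_image_of_injective _ (Function.Embedding.injective _),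
      ← SimpleGraph.coe_edgeFinset, Set.ncard_coe_finset]
  rw [h1, ← SimpleGraph.dart_card_eq_twice_card_edges]
  rw [← Finset.card_univ]
  refine Finset.card_bij (fun d _ => d.toProd) ?_ ?_ ?_
  · intro d _
    simp only [Finset.mem_filter, Finset.mem_univ, true_and]
    exact d.adj
  · intro d _ d' _ h
    exact SimpleGraph.Dart.ext _ _ h
  · intro t ht
    simp only [Finset.mem_filter, Finset.mem_univ, true_and] at ht
    exact ⟨⟨t, ht⟩, Finset.mem_univ _, rfl⟩

theorem edges_le_choose (P : Finset Pl) (G : SimpleGraph Pl)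
    (hG : ∀ p q, G.Adj p q → p ∈ P ∧ q ∈ P) : G.edgeSet.ncard ≤ P.card.choose 2 := by
  classical
  have h1 := two_mul_edges P G hG
  have h2 : ((univ : Finset (P × P)).filter fun t => G.Adj t.1 t.2).card ≤
      P.card * P.card - P.card := by
    have h3 : ((univ : Finset (P × P)).filter fun t => G.Adj t.1 t.2) ⊆
        (univ : Finset P).offDiag := by
      intro t ht
      simp only [Finset.mem_filter, Finset.mem_univ, true_and] at ht
      rw [Finset.mem_offDiag]
      exact ⟨Finset.mem_univ _, Finset.mem_univ _, fun h => G.loopless.irrefl _ (h ▸ ht)⟩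
    have h4 := Finset.card_le_card h3
    rw [Finset.offDiag_card, Finset.card_univ, Fintype.card_coe] at h4
    exact h4
  rw [Nat.choose_two_right]
  have h5 : P.card * P.card - P.card = P.card * (P.card - 1) := by
    rw [Nat.mul_sub_one]
  rw [h5] at h2
  have : G.edgeSet.ncard * 2 ≤ P.card * (P.card - 1) := by
    calc G.edgeSet.ncard * 2 = 2 * G.edgeSet.ncard := by ring
      _ ≤ _ := by rw [h1]; exact h2
  exact (Nat.le_div_iff_mul_le (by norm_num)).mpr this

/-- The open sphere-of-influence graph has at most `9 n - 36` edges (`n ≥ 7`). -/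
theorem open_bound (P : Finset Pl) (h7 : 7 ≤ P.card) :
    (sig P).edgeSet.ncard + 36 ≤ 9 * P.card := by
  classical
  have hG : ∀ p q, (sig P).Adj p q → p ∈ P ∧ q ∈ P := fun p q h => ⟨h.1, h.2.1⟩
  have h1 := two_mul_edges P (sig P) hG
  have hcard : Fintype.card P = P.card := Fintype.card_coe P
  have h2 := bound (ι := P) (fun x => ga (x : Pl)) (fun x => gb (x : Pl)) (fun x => gc P (x : Pl))
    (by
      intro i
      refine ⟨(i : Pl) 0, (i : Pl) 1, 1, fun q hq => ?_⟩
      exact geo_hidden P (by omega) i i.2 q q.2 (fun h => hq (Subtype.ext h)))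
    (by rw [hcard]; exact h7)
    ((univ : Finset (P × P)).filter fun t => (sig P).Adj t.1 t.2)
    (by
      intro t ht
      simp only [Finset.mem_filter, Finset.mem_univ, true_and] at ht
      refine ⟨fun h => (sig P).loopless.irrefl _ (h ▸ ht), ?_⟩
      obtain ⟨u, v, h0, hle⟩ := geo_witness P t.1 t.2 ht
      refine ⟨u, v, 1, h0, le_trans ?_ hle⟩
      refine Finset.card_le_card_of_injOn (fun x => (x : Pl)) ?_ ?_
      · intro x hx
        simp only [Finset.coe_filter, Finset.mem_univ, true_and, Set.mem_ofPred_eq] at hx ⊢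
        exact ⟨x.2, fun h => hx.1 (Subtype.ext h), fun h => hx.2.1 (Subtype.ext h), hx.2.2⟩
      · intro x _ y _ h
        exact Subtype.ext h)
  rw [hcard] at h2
  omega

/-- The open sphere-of-influence graph has at most `9 n` edges. -/
theorem open_bound' (P : Finset Pl) : (sig P).edgeSet.ncard ≤ 9 * P.card := by
  rcases Nat.lt_or_ge P.card 7 with h | h
  · have hG : ∀ p q, (sig P).Adj p q → p ∈ P ∧ q ∈ P := fun p q h => ⟨h.1, h.2.1⟩
    have h1 := edges_le_choose P (sig P) hG
    refine le_trans h1 ?_
    interval_cases P.card <;> decide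
  · have := open_bound P h
    omega

end Pool.Agent.Helper67.SIG
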