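import Pool.Agent.Helper67.SIG.Count

/-!
# Removing the general position hypothesis
-/

open Finset Filter Topology

namespace Pool.Agent.Helper67.SIG

variable {ι : Type*}

theorem chi_vandermonde (t : ι → ℝ) (i j k x : ι) :
    chi t (fun q => t q ^ 2) (fun q => t q ^ 3) i j k x =
      (t x - t i) * (t j - t i) * (t k - t i) * (t j - t x) * (t k - t x) * (t k - t j) := by
  unfold chi; ring

theorem chi_expand (a b c a' b' c' : ι → ℝ) (ε : ℝ) (i j k x : ι) :
    chi (fun q => a q + ε * a' q) (fun q => b q + ε * b' q) (fun q => c q + ε * c' q) i j k x =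
      chi a b c i j k x + (chi a' b c i j k x + chi a b' c i j k x + chi a b c' i j k x) * ε +
      (chi a' b' c i j k x + chi a' b c' i j k x + chi a b' c' i j k x) * ε ^ 2 +
      chi a' b' c' i j k x * ε ^ 3 := by
  unfold chi; ring

theorem finite_cubic (p0 p1 p2 p3 : ℝ) (h : p3 ≠ 0) :
    {ε : ℝ | p0 + p1 * ε + p2 * ε ^ 2 + p3 * ε ^ 3 = 0}.Finite := by
  set Q : Polynomial ℝ := Polynomial.C p0 + Polynomial.C p1 * Polynomial.X +
    Polynomial.C p2 * Polynomial.X ^ 2 + Polynomial.C p3 * Polynomial.X ^ 3 with hQ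
  have hne : Q ≠ 0 := by
    intro h0
    have : Q.coeff 3 = p3 := by
      rw [hQ]
      simp
    rw [h0] at this
    exact h (by simpa using this.symm)
  refine (Polynomial.finite_setOfPred_isRoot hne).subset ?_
  intro ε hε
  simp only [Set.mem_ofPred_eq] at hε ⊢
  rw [Polynomial.IsRoot.def, hQ]
  simpa using hε

/-- Distinct real numbers attached to the indices. -/
noncomputable def tt [Fintype ι] (x : ι) : ℝ := ((Fintype.equivFin ι x : ℕ) : ℝ)

theorem tt_injective [Fintype ι] : Function.Injective (tt : ι → ℝ) := by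
  intro x y h
  have h1 : ((Fintype.equivFin ι x : ℕ) : ℝ) = ((Fintype.equivFin ι y : ℕ) : ℝ) := h
  have h2 : (Fintype.equivFin ι x : ℕ) = (Fintype.equivFin ι y : ℕ) := by exact_mod_cast h1
  exact (Fintype.equivFin ι).injective (Fin.ext h2)

/-- Perturbed coordinates. -/
noncomputable def pa [Fintype ι] (a : ι → ℝ) (ε : ℝ) (q : ι) : ℝ := a q + ε * tt q
/-- Perturbed coordinates. -/
noncomputable def pb [Fintype ι] (b : ι → ℝ) (ε : ℝ) (q : ι) : ℝ := b q + ε * tt q ^ 2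
/-- Perturbed coordinates. -/
noncomputable def pc [Fintype ι] (c : ι → ℝ) (ε : ℝ) (q : ι) : ℝ := c q + ε * tt q ^ 3

theorem dif_pert [Fintype ι] (a b c : ι → ℝ) (i q : ι) (u v w ε : ℝ) :
    dif (pa a ε) (pb b ε) (pc c ε) i q u v w = dif a b c i q u v w +
      ε * dif (tt : ι → ℝ) (fun q => tt q ^ 2) (fun q => tt q ^ 3) i q u v w := by
  show (a q + ε * tt q - (a i + ε * tt i)) * u + (b q + ε * tt q ^ 2 - (b i + ε * tt i ^ 2)) * v +
    (c q + ε * tt q ^ 3 - (c i + ε * tt i ^ 3)) * w = _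
  unfold dif; ring

theorem dif_pert_zero [Fintype ι] (a b c : ι → ℝ) (i q : ι) (u v w : ℝ) :
    dif (pa a 0) (pb b 0) (pc c 0) i q u v w = dif a b c i q u v w := by
  rw [dif_pert]; simp

theorem dif_pert_cont [Fintype ι] (a b c : ι → ℝ) (i q : ι) (u v w : ℝ) :
    Continuous fun ε : ℝ => dif (pa a ε) (pb b ε) (pc c ε) i q u v w := by
  simp only [dif_pert]; fun_prop

/-- General position. -/
def Gen (a b c : ι → ℝ) : Prop :=
  ∀ i j k x : ι, i ≠ j → i ≠ k → j ≠ k → x ≠ i → x ≠ j → x ≠ k → chi a b c i j k x ≠ 0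

/-- Arbitrarily small perturbations are in general position. -/
theorem exists_generic [Fintype ι] (a b c : ι → ℝ) (Q : ℝ → Prop)
    (hQ : ∀ᶠ ε in 𝓝 (0 : ℝ), Q ε) :
    ∃ ε : ℝ, Q ε ∧ Function.Injective (pa a ε) ∧ Gen (pa a ε) (pb b ε) (pc c ε) := by
  classical
  have hbad1 : {ε : ℝ | ¬ Function.Injective (pa a ε)}.Finite := by
    have : {ε : ℝ | ¬ Function.Injective (pa a ε)} ⊆
        ⋃ p : ι × ι, {(a p.2 - a p.1) / (tt p.1 - tt p.2)} := by
      intro ε hε
      have hε' : ¬ Function.Injective (pa a ε) := hε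
      simp only [Function.Injective] at hε'
      push Not at hε'
      obtain ⟨x, y, hxy, hne⟩ := hε'
      rw [Set.mem_iUnion]
      refine ⟨(x, y), ?_⟩
      have h1 : tt x - tt y ≠ 0 := sub_ne_zero.mpr (fun h => hne (tt_injective h))
      have h2 : a x + ε * tt x = a y + ε * tt y := hxy
      show ε = (a y - a x) / (tt x - tt y)
      rw [eq_div_iff h1]; linarith
    exact (Set.finite_iUnion (fun _ => Set.finite_singleton _)).subset this
  have hbad2 : {ε : ℝ | ¬ Gen (pa a ε) (pb b ε) (pc c ε)}.Finite := by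
    have : {ε : ℝ | ¬ Gen (pa a ε) (pb b ε) (pc c ε)} ⊆
        ⋃ p : ι × ι × ι × ι, {ε : ℝ | (p.1 ≠ p.2.1 ∧ p.1 ≠ p.2.2.1 ∧ p.2.1 ≠ p.2.2.1 ∧
          p.2.2.2 ≠ p.1 ∧ p.2.2.2 ≠ p.2.1 ∧ p.2.2.2 ≠ p.2.2.1) ∧
          chi (pa a ε) (pb b ε) (pc c ε) p.1 p.2.1 p.2.2.1 p.2.2.2 = 0} := by
      intro ε hε
      have hε' : ¬ Gen (pa a ε) (pb b ε) (pc c ε) := hε
      unfold Gen at hε'
      push Not at hε'
      obtain ⟨i, j, k, x, h1, h2, h3, h4, h5, h6, h7⟩ := hε'
      rw [Set.mem_iUnion]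
      exact ⟨(i, j, k, x), ⟨h1, h2, h3, h4, h5, h6⟩, h7⟩
    refine (Set.finite_iUnion ?_).subset this
    rintro ⟨i, j, k, x⟩
    by_cases hd : (i ≠ j ∧ i ≠ k ∧ j ≠ k ∧ x ≠ i ∧ x ≠ j ∧ x ≠ k)
    · have hp3 : chi (tt : ι → ℝ) (fun q => tt q ^ 2) (fun q => tt q ^ 3) i j k x ≠ 0 := by
        rw [chi_vandermonde]
        have hs : ∀ {p q : ι}, p ≠ q → (tt p : ℝ) - tt q ≠ 0 :=
          fun h => sub_ne_zero.mpr (fun h' => h (tt_injective h'))
        obtain ⟨h1, h2, h3, h4, h5, h6⟩ := hd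
        exact mul_ne_zero (mul_ne_zero (mul_ne_zero (mul_ne_zero (mul_ne_zero (hs h4) (hs h1.symm))
          (hs h2.symm)) (hs h5.symm)) (hs h6.symm)) (hs h3.symm)
      refine (finite_cubic (chi a b c i j k x) (chi tt b c i j k x +
        chi a (fun q => tt q ^ 2) c i j k x + chi a b (fun q => tt q ^ 3) i j k x)
        (chi tt (fun q => tt q ^ 2) c i j k x + chi tt b (fun q => tt q ^ 3) i j k x +
          chi a (fun q => tt q ^ 2) (fun q => tt q ^ 3) i j k x) _ hp3).subset ?_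
      rintro ε ⟨_, h⟩
      have h' : chi (fun q => a q + ε * tt q) (fun q => b q + ε * (fun q => tt q ^ 2) q)
        (fun q => c q + ε * (fun q => tt q ^ 3) q) i j k x = 0 := h
      rw [chi_expand] at h'
      exact h'
    · refine Set.Finite.subset Set.finite_empty ?_
      rintro ε ⟨h, _⟩
      exact absurd h hd
  obtain ⟨δ, hδ, hball⟩ := Metric.eventually_nhds_iff.mp hQ
  obtain ⟨ε, hε1, hε2⟩ := (Set.Ioo_infinite hδ).exists_notMem_finite (hbad1.union hbad2)
  rw [Set.mem_union, not_or] at hε2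
  refine ⟨ε, hball (by rw [Real.dist_eq, sub_zero, abs_of_pos hε1.1]; exact hε1.2), ?_, ?_⟩
  · by_contra hcon
    exact hε2.1 hcon
  · by_contra hcon
    exact hε2.2 hcon

/-- Hidden-freeness is stable. -/
theorem hidden_pert [Fintype ι] (a b c : ι → ℝ)
    (hN : ∀ i, ∃ u v w : ℝ, ∀ q, q ≠ i → 0 < dif a b c i q u v w) :
    ∀ᶠ ε in 𝓝 (0 : ℝ), ∀ i, ∃ u v w : ℝ, ∀ q, q ≠ i →
      0 < dif (pa a ε) (pb b ε) (pc c ε) i q u v w := by
  rw [Filter.eventually_all]
  intro i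
  obtain ⟨u, v, w, hz⟩ := hN i
  have : ∀ᶠ ε in 𝓝 (0 : ℝ), ∀ q, q ≠ i → 0 < dif (pa a ε) (pb b ε) (pc c ε) i q u v w := by
    rw [Filter.eventually_all]
    intro q
    by_cases hq : q = i
    · exact Filter.Eventually.of_forall fun ε h => absurd hq h
    · have h0 : 0 < dif (pa a 0) (pb b 0) (pc c 0) i q u v w := by
        rw [dif_pert_zero]; exact hz q hq
      filter_upwards [(dif_pert_cont a b c i q u v w).continuousAt.eventually
        (lt_mem_nhds h0)] with ε h _ using h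
  filter_upwards [this] with ε h using ⟨u, v, w, h⟩

/-- A witness of order at most two is stable. -/
theorem witness_pert [Fintype ι] [DecidableEq ι] (a b c : ι → ℝ)
    (hN : ∀ i, ∃ u v w : ℝ, ∀ q, q ≠ i → 0 < dif a b c i q u v w) {i j : ι} (hij : i ≠ j)
    {u v w : ℝ} (h0 : dif a b c i j u v w = 0)
    (h2 : (univ.filter fun x => x ≠ i ∧ x ≠ j ∧ dif a b c i x u v w ≤ 0).card ≤ 2) :
    ∀ᶠ ε in 𝓝 (0 : ℝ), ∃ u v w : ℝ, dif (pa a ε) (pb b ε) (pc c ε) i j u v w = 0 ∧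
      (univ.filter fun x => x ≠ i ∧ x ≠ j ∧
        dif (pa a ε) (pb b ε) (pc c ε) i x u v w ≤ 0).card ≤ 2 := by
  obtain ⟨u', v', w', hz⟩ := hN i
  have hz' := hz j hij.symm
  let s : ℝ → ℝ := fun ε => - dif (pa a ε) (pb b ε) (pc c ε) i j u v w /
    dif (pa a ε) (pb b ε) (pc c ε) i j u' v' w'
  have hs0 : s 0 = 0 := by
    show - dif (pa a 0) (pb b 0) (pc c 0) i j u v w / dif (pa a 0) (pb b 0) (pc c 0) i j u' v' w' = 0
    rw [dif_pert_zero, h0]; simp
  have hscont : ContinuousAt s 0 := by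
    refine ContinuousAt.div (dif_pert_cont a b c i j u v w).continuousAt.neg
      (dif_pert_cont a b c i j u' v' w').continuousAt ?_
    rw [dif_pert_zero]; exact hz'.ne'
  have hlin : ∀ (q : ι) (ε r : ℝ), dif (pa a ε) (pb b ε) (pc c ε) i q (u + r * u') (v + r * v')
      (w + r * w') = dif (pa a ε) (pb b ε) (pc c ε) i q u v w +
        r * dif (pa a ε) (pb b ε) (pc c ε) i q u' v' w' := by
    intro q ε r; unfold dif; ring
  have hx : ∀ᶠ ε in 𝓝 (0 : ℝ), ∀ x, 0 < dif a b c i x u v w →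
      0 < dif (pa a ε) (pb b ε) (pc c ε) i x (u + s ε * u') (v + s ε * v') (w + s ε * w') := by
    rw [Filter.eventually_all]
    intro x
    by_cases hx : 0 < dif a b c i x u v w
    · have hcc : ContinuousAt (fun ε => dif (pa a ε) (pb b ε) (pc c ε) i x (u + s ε * u')
          (v + s ε * v') (w + s ε * w')) 0 := by
        simp only [hlin]
        exact (dif_pert_cont a b c i x u v w).continuousAt.add
          (hscont.mul (dif_pert_cont a b c i x u' v' w').continuousAt)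
      have hpos : 0 < dif (pa a 0) (pb b 0) (pc c 0) i x (u + s 0 * u') (v + s 0 * v')
          (w + s 0 * w') := by
        rw [hs0, dif_pert_zero]; simpa using hx
      filter_upwards [hcc.eventually (lt_mem_nhds hpos)] with ε h _ using h
    · exact Filter.Eventually.of_forall fun ε h => absurd h hx
  have hden : ∀ᶠ ε in 𝓝 (0 : ℝ), 0 < dif (pa a ε) (pb b ε) (pc c ε) i j u' v' w' := by
    have h5 : 0 < dif (pa a 0) (pb b 0) (pc c 0) i j u' v' w' := by rw [dif_pert_zero]; exact hz'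
    exact (dif_pert_cont a b c i j u' v' w').continuousAt.eventually (lt_mem_nhds h5)
  filter_upwards [hx, hden] with ε h1 h3
  refine ⟨u + s ε * u', v + s ε * v', w + s ε * w', ?_, ?_⟩
  · rw [hlin]
    show _ + (- dif (pa a ε) (pb b ε) (pc c ε) i j u v w /
      dif (pa a ε) (pb b ε) (pc c ε) i j u' v' w') * _ = 0
    field_simp
    ring
  · refine le_trans (Finset.card_le_card ?_) h2
    intro x hx'
    simp only [Finset.mem_filter, Finset.mem_univ, true_and] at hx' ⊢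
    refine ⟨hx'.1, hx'.2.1, ?_⟩
    by_contra hcon
    push Not at hcon
    exact absurd (h1 x hcon) (not_lt.mpr hx'.2.2)

/-- Theorem A: the number of ordered pairs of order at most two. -/
theorem bound [Fintype ι] [DecidableEq ι] (a b c : ι → ℝ)
    (hN : ∀ i, ∃ u v w : ℝ, ∀ q, q ≠ i → 0 < dif a b c i q u v w)
    (hcard : 7 ≤ Fintype.card ι) (E : Finset (ι × ι))
    (hE : ∀ p ∈ E, p.1 ≠ p.2 ∧ ∃ u v w : ℝ, dif a b c p.1 p.2 u v w = 0 ∧
      (univ.filter fun x => x ≠ p.1 ∧ x ≠ p.2 ∧ dif a b c p.1 x u v w ≤ 0).card ≤ 2) :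
    E.card ≤ 18 * (Fintype.card ι - 4) := by
  have hev2 : ∀ᶠ ε in 𝓝 (0 : ℝ), ∀ p ∈ E, p.1 ≠ p.2 ∧ ∃ u v w : ℝ,
      dif (pa a ε) (pb b ε) (pc c ε) p.1 p.2 u v w = 0 ∧
      (univ.filter fun x => x ≠ p.1 ∧ x ≠ p.2 ∧
        dif (pa a ε) (pb b ε) (pc c ε) p.1 x u v w ≤ 0).card ≤ 2 := by
    rw [Filter.eventually_all_finset]
    intro p hp
    obtain ⟨hij, u, v, w, h0, h2⟩ := hE p hp
    filter_upwards [witness_pert a b c hN hij h0 h2] with ε h using ⟨hij, h⟩
  obtain ⟨ε, ⟨h1, h2⟩, hinj, hgen⟩ := exists_generic a b c _ ((hidden_pert a b c hN).and hev2)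
  exact bound_generic (pa a ε) (pb b ε) (pc c ε) hinj hgen h1 hcard E h2

end Pool.Agent.Helper67.SIG
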